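import Pool.Agent.Helper46.NU.Goals1
import Pool.Agent.Helper97.Ku.RO

/-!
# MP_1fe1ca_lc, packet ALG: the complete Boolean algebra of measurable sets modulo the ideal
-/

open MeasureTheory Filter Topology Set
open scoped ENNReal
open Pool.Agent.Helper97.Ku

noncomputable section

namespace NU.PkALG

variable {S : Sys}

theorem nul_mono {K K' : Set (Pt S)} (h : K ⊆ K') (hK : Nul S K') : Nul S K := by
  unfold Nul at hK ⊢
  filter_upwards [hK] with φ hφ
  refine le_antisymm (le_trans (measure_mono ?_) hφ.le) bot_le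
  intro ω hω
  exact h hω

theorem nul_empty : Nul S (∅ : Set (Pt S)) := by
  unfold Nul
  refine Eventually.of_forall fun φ => ?_
  simp [pr]

theorem nul_iUnion {ι : Type} [Countable ι] {K : ι → Set (Pt S)} (h : ∀ i, Nul S (K i)) :
    Nul S (⋃ i, K i) := by
  unfold Nul at h ⊢
  have h1 : ∀ᶠ φ in residual (Ph S), ∀ i, pr S φ (K i) = 0 :=
    eventually_countable_forall.mpr h
  filter_upwards [h1] with φ hφ
  have h2 : {ω | zz S φ ω ∈ ⋃ i, K i} = ⋃ i, {ω | zz S φ ω ∈ K i} := by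
    ext ω; simp
  unfold pr
  rw [h2]
  exact measure_iUnion_null hφ

theorem nul_union {K K' : Set (Pt S)} (h : Nul S K) (h' : Nul S K') : Nul S (K ∪ K') := by
  have h1 : K ∪ K' = ⋃ b : Bool, (if b then K else K') := by
    ext x; simp [or_comm]
  rw [h1]
  exact nul_iUnion fun b => by cases b <;> simp [h, h']

/-- The measurable sets outside the ideal. -/
def Pos (S : Sys) : Type := {K : Set (Pt S) // MeasurableSet K ∧ ¬ Nul S K}

instance : Preorder (Pos S) where
  le K K' := Nul S (K.1 \ K'.1)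
  le_refl K := by
    show Nul S (K.1 \ K.1)
    exact nul_mono (fun x hx => absurd hx.1 hx.2) nul_empty
  le_trans K K' K'' h h' := nul_mono (fun x hx => by
    by_cases hx' : x ∈ K'.1
    · exact Or.inr ⟨hx', hx.2⟩
    · exact Or.inl ⟨hx.1, hx'⟩) (nul_union h h')

theorem le_iff {K K' : Pos S} : K ≤ K' ↔ Nul S (K.1 \ K'.1) := Iff.rfl

/-- The element of the algebra given by a set. -/
def e (S : Sys) (K : Set (Pt S)) : RO (Pos S) := RO.cl {Q | Nul S (Q.1 \ K)}

theorem mem_e {K : Set (Pt S)} (hK : MeasurableSet K) {Q : Pos S} :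
    Q ∈ e S K ↔ Nul S (Q.1 \ K) := by
  constructor
  · intro h
    by_contra hn
    obtain ⟨R, hR, hR'⟩ := h ⟨Q.1 \ K, Q.2.1.diff hK, hn⟩ (nul_mono (fun x hx =>
      absurd hx.1.1 hx.2) nul_empty)
    refine R.2.2 (nul_mono (fun x hx => ?_) (nul_union hR hR'))
    by_cases hx' : x ∈ K
    · exact Or.inl ⟨hx, fun h => h.2 hx'⟩
    · exact Or.inr ⟨hx, hx'⟩
  · intro h Q' hQ'
    refine ⟨Q', le_rfl, nul_mono (fun x hx => ?_) (nul_union hQ' h)⟩
    by_cases hx' : x ∈ Q.1
    · exact Or.inr ⟨hx', hx.2⟩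
    · exact Or.inl ⟨hx.1, hx'⟩

theorem e_le {K K' : Set (Pt S)} (hK : MeasurableSet K) (hK' : MeasurableSet K') :
    e S K ≤ e S K' ↔ Nul S (K \ K') := by
  constructor
  · intro h
    by_contra hn
    have h1 : (⟨K \ K', hK.diff hK', hn⟩ : Pos S) ∈ e S K :=
      (mem_e hK).mpr (nul_mono (fun x hx => absurd hx.1.1 hx.2) nul_empty)
    have h2 : Nul S ((K \ K') \ K') := (mem_e hK').mp (h _ h1)
    have h3 : K \ K' ⊆ (K \ K') \ K' := fun x hx => ⟨hx, hx.2⟩
    exact hn (nul_mono h3 h2)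
  · intro h Q hQ
    rw [mem_e hK] at hQ
    rw [mem_e hK']
    refine nul_mono (fun x hx => ?_) (nul_union hQ h)
    by_cases hx' : x ∈ K
    · exact Or.inr ⟨hx', hx.2⟩
    · exact Or.inl ⟨hx.1, hx'⟩

theorem e_surj (ccc : G_CCC) (b : RO (Pos S)) : ∃ K, MeasurableSet K ∧ e S K = b := by
  set F : Set (Set (Pos S)) :=
    {A | (∀ Q ∈ A, Q ∈ b) ∧ A.Pairwise (fun Q Q' => Nul S (Q.1 ∩ Q'.1))} with hF
  have hz : ∃ m, Maximal (· ∈ F) m := by
    apply zorn_subset
    intro c hc hch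
    refine ⟨⋃₀ c, ⟨?_, ?_⟩, fun s hs => Set.subset_sUnion_of_mem hs⟩
    · rintro Q ⟨s, hs, hQ⟩
      exact (hc hs).1 Q hQ
    · rintro Q ⟨s, hs, hQ⟩ Q' ⟨s', hs', hQ'⟩ hne
      rcases hch.total hs hs' with h | h
      · exact (hc hs').2 (h hQ) hQ' hne
      · exact (hc hs).2 hQ (h hQ') hne
  obtain ⟨A, hA⟩ := hz
  obtain ⟨hA1, hA2⟩ := hA.prop
  have hcount : Countable A := by
    refine ccc S A (fun i => i.1.1) (fun i => i.1.2.1) (fun i => i.1.2.2) (fun i j hij => ?_)
    exact hA2 i.2 j.2 (fun h => hij (Subtype.ext h))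
  refine ⟨⋃ i : A, i.1.1, MeasurableSet.iUnion (fun i => i.1.2.1), ?_⟩
  have hm : MeasurableSet (⋃ i : A, i.1.1) := MeasurableSet.iUnion (fun i => i.1.2.1)
  apply le_antisymm
  · intro Q hQ
    rw [mem_e hm] at hQ
    apply RO.dense
    intro Q' hQ'
    have h1 : ∃ i : A, ¬ Nul S (Q'.1 ∩ i.1.1) := by
      by_contra hall
      push Not at hall
      apply Q'.2.2
      refine nul_mono (fun x hx => ?_) (nul_union (nul_iUnion hall) (nul_union hQ' hQ))
      by_cases hx' : x ∈ ⋃ i : A, i.1.1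
      · left
        rw [Set.mem_iUnion] at hx' ⊢
        obtain ⟨i, hi⟩ := hx'
        exact ⟨i, hx, hi⟩
      · right
        by_cases hx'' : x ∈ Q.1
        · exact Or.inr ⟨hx'', hx'⟩
        · exact Or.inl ⟨hx, hx''⟩
    obtain ⟨i, hi⟩ := h1
    refine ⟨⟨Q'.1 ∩ i.1.1, Q'.2.1.inter i.1.2.1, hi⟩, ?_, ?_⟩
    · exact nul_mono (fun x hx => absurd hx.1.1 hx.2) nul_empty
    · refine RO.lower (p := i.1) ?_ (hA1 i.1 i.2)
      exact nul_mono (fun x hx => absurd hx.1.2 hx.2) nul_empty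
  · intro Q hQ
    rw [mem_e hm]
    by_contra hn
    set R : Pos S := ⟨Q.1 \ ⋃ i : A, i.1.1, Q.2.1.diff hm, hn⟩ with hR
    have hRb : R ∈ b := by
      refine RO.lower (p := Q) ?_ hQ
      exact nul_mono (fun x hx => absurd hx.1.1 hx.2) nul_empty
    have hdis : ∀ P ∈ A, Nul S (R.1 ∩ P.1) := by
      intro P hP
      refine nul_mono (fun x hx => ?_) nul_empty
      exact absurd (Set.mem_iUnion.mpr ⟨(⟨P, hP⟩ : A), hx.2⟩) hx.1.2
    have hRA : R ∉ A := by
      intro h
      have h3 : R.1 ⊆ R.1 ∩ R.1 := fun x hx => ⟨hx, hx⟩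
      exact R.2.2 (nul_mono h3 (hdis R h))
    have hins : insert R A ∈ F := by
      refine ⟨?_, ?_⟩
      · intro P hP
        rcases Set.mem_insert_iff.mp hP with h | h
        · rw [h]; exact hRb
        · exact hA1 P h
      · intro P hP P' hP' hne
        rcases Set.mem_insert_iff.mp hP with h | h
        · rcases Set.mem_insert_iff.mp hP' with h' | h'
          · exact absurd (h.trans h'.symm) hne
          · rw [h]; exact hdis P' h'
        · rcases Set.mem_insert_iff.mp hP' with h' | h'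
          · rw [h', Set.inter_comm]; exact hdis P h
          · exact hA2 h h' hne
    exact hRA (hA.le_of_ge hins (Set.subset_insert R A) (Set.mem_insert R A))

theorem alg (ccc : G_CCC) : G_ALG := fun S =>
  ⟨RO (Pos S), inferInstance, e S, ⟨fun _ _ hK hK' => e_le hK hK', fun b => e_surj ccc b⟩⟩

end NU.PkALG
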