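import Pool.Agent.Helper46.NU.Names

/-!
# MP_1fe1ca_lc, packet CAP: every real is in many named null sets
-/

open MeasureTheory Filter Topology Set

noncomputable section

namespace NU.PkCAP

open Pool.Agent.Helper97.Ku

theorem meas_eq {S : Sys} {w : Pt S → ℕ → Bool} (hw : Measurable w) (q : S.C) (m : ℕ) :
    MeasurableSet {z : Pt S | w z m = z q m} := by
  have h1 : Measurable (fun z : Pt S => ((w z m, z q m) : Bool × Bool)) := by
    refine Measurable.prodMk ((measurable_pi_apply m).comp hw) ?_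
    exact (measurable_pi_apply m).comp (measurable_pi_apply q)
  exact h1 (MeasurableSet.of_discrete (s := {p : Bool × Bool | p.1 = p.2}))

theorem meas_nset {S : Sys} {w : Pt S → ℕ → Bool} (hw : Measurable w) (q : S.C) :
    MeasurableSet {z : Pt S | w z ∈ Nset (z q)} := by
  have h : {z : Pt S | w z ∈ Nset (z q)} =
      ⋂ a : ℕ, ⋃ n : ℕ, ⋃ (_ : a ≤ n), ⋂ m : ℕ, ⋂ (_ : m ∈ blk n), {z | w z m = z q m} := by
    ext z
    simp only [Nset, Set.mem_setOf_eq, Filter.frequently_atTop, Set.mem_iInter, Set.mem_iUnion,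
      exists_prop]
  rw [h]
  refine MeasurableSet.iInter fun a => MeasurableSet.iUnion fun n => MeasurableSet.iUnion fun _ =>
    MeasurableSet.iInter fun m => MeasurableSet.iInter fun _ => meas_eq hw q m

theorem cap (ehom : G_EHOM) (sup : G_SUP) (coh : G_COH) (nsn : G_NSN) : G_CAP := by
  intro S L _ e hA w hw
  have hwm : ∀ n, MeasurableSet {z : Pt S | w z n = true} := fun n =>
    ((measurable_pi_apply n).comp hw) (MeasurableSet.of_discrete (s := {b : Bool | b = true}))
  obtain ⟨Γ, hΓ, hsup⟩ := sup S (fun n => {z | w z n = true}) hwm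
  refine ⟨Γ, hΓ, fun q hq hsee => ?_⟩
  have hdep : ∀ z z' : Pt S, (∀ c, S.see q c → z c = z' c) → w z = w z' := by
    intro z z' h
    funext n
    have h1 := hsup z z' (fun c hc => h c (hsee c hc)) n
    exact Bool.eq_iff_iff.mpr h1
  have h1 := coh S q hq w hw hdep
  have hm := meas_nset hw q
  have h2 := (nsn S L e hA (fun z => z q) (measurable_pi_apply q)).2 w hw
  rw [h2]
  exact (((ehom S L e hA).2.2.2.2.2.2 _ hm).2).mpr h1

end NU.PkCAP
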